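import Mathlib

set_option autoImplicit false

namespace Pool.Agent.Results.MP_d91817_gt.SharpThreshold

/-- `t` cuts `[0,1]` into the `k` closed intervals `[t i, t (i+1)]`, `i < k`, each of positive length
less than `ε`. -/
def Cuts (ε : ℝ) (k : ℕ) (t : ℕ → ℝ) : Prop :=
  0 < k ∧ t 0 = 0 ∧ t k = 1 ∧ ∀ i, i < k → t i < t (i + 1) ∧ t (i + 1) - t i < ε

/-- The indices `j < k` for which the image of the `j`-th interval meets that of the `i`-th one. -/
def Meeting {Y : Type*} (f : ℝ → Y) (k : ℕ) (t : ℕ → ℝ) (i : ℕ) : Set ℕ :=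
  {j : ℕ | j < k ∧
    (f '' Set.Icc (t i) (t (i + 1)) ∩ f '' Set.Icc (t j) (t (j + 1))).Nonempty}

/-- `f` is finitely linear on `[0,1]` with the constant `m`. -/
def FinLinWith {Y : Type*} (f : ℝ → Y) (m : ℕ) : Prop :=
  ∀ ε : ℝ, 0 < ε → ∃ (k : ℕ) (t : ℕ → ℝ), Cuts ε k t ∧
    ∀ i, i < k → (Meeting f k t i).encard ≤ (m : ℕ∞)

/-- the ternary embedding of the Cantor space -/
noncomputable def e (a : ℕ → Bool) : ℝ := Real.ofDigits fun i => (cond (a i) 2 0 : Fin 3)

theorem e_mem (a : ℕ → Bool) : 0 ≤ e a ∧ e a ≤ 1 :=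
  ⟨Real.ofDigits_nonneg _, Real.ofDigits_le_one _⟩

theorem e_cont : Continuous e :=
  Real.continuous_ofDigits.comp (continuous_pi fun i =>
    (continuous_of_discreteTopology (f := fun b : Bool => (cond b 2 0 : Fin 3))).comp
      (continuous_apply i))

theorem e_lt {a b : ℕ → Bool} {i : ℕ} (h : ∀ l < i, a l = b l) (ha : a i = false)
    (hb : b i = true) : e a + ((3 : ℝ) ^ (i + 1))⁻¹ ≤ e b := by
  unfold e
  rw [Real.ofDigits_eq_sum_add_ofDigits _ (i + 1),
    Real.ofDigits_eq_sum_add_ofDigits (fun i => (cond (b i) 2 0 : Fin 3)) (i + 1),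
    Finset.sum_range_succ, Finset.sum_range_succ]
  have h1 : ∑ l ∈ Finset.range i, Real.ofDigitsTerm (fun i => (cond (a i) 2 0 : Fin 3)) l =
      ∑ l ∈ Finset.range i, Real.ofDigitsTerm (fun i => (cond (b i) 2 0 : Fin 3)) l :=
    Finset.sum_congr rfl fun l hl => by
      simp only [Real.ofDigitsTerm, h l (Finset.mem_range.1 hl)]
  have h2 := Real.ofDigits_le_one (fun l => (cond (a (l + (i + 1))) 2 0 : Fin 3))
  have h3 := Real.ofDigits_nonneg (fun l => (cond (b (l + (i + 1))) 2 0 : Fin 3))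
  have h4 : (0 : ℝ) < ((3 : ℝ) ^ (i + 1))⁻¹ := by positivity
  rw [h1]
  simp only [Real.ofDigitsTerm, ha, hb, cond_true, cond_false]
  push_cast
  have h5 : (((0 : Fin 3) : ℕ) : ℝ) = 0 := by simp
  have h6 : (((2 : Fin 3) : ℕ) : ℝ) = 2 := by norm_num
  nlinarith

theorem e_le {a b : ℕ → Bool} {i : ℕ} (h : ∀ l < i, a l = b l) (ha : a i = false)
    (hb : b i = true) : e a < e b :=
  lt_of_lt_of_le (lt_add_of_pos_right _ (by positivity)) (e_lt h ha hb)

theorem e_inj : Function.Injective e := by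
  intro a b h
  by_contra hc
  have h1 : ∃ i, a i ≠ b i := Function.ne_iff.1 hc
  have h2 := Nat.find_spec h1
  have h3 : ∀ l < Nat.find h1, a l = b l := fun l hl => not_not.1 (Nat.find_min h1 hl)
  cases ha : a (Nat.find h1) <;> cases hb : b (Nat.find h1)
  · exact h2 (ha.trans hb.symm)
  · exact (e_le h3 ha hb).ne h
  · exact (e_le (fun l hl => (h3 l hl).symm) hb ha).ne h.symm
  · exact h2 (ha.trans hb.symm)

/-- an involution of the coordinates -/
def pm (l : ℕ) : ℕ := if l % 2 = 1 then 2 * l else if l % 4 = 2 then l / 2 else l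

theorem pm_pm (l : ℕ) : pm (pm l) = l := by
  unfold pm
  split_ifs <;> omega

theorem cover (t : ℕ → ℝ) (x : ℝ) (h0 : t 0 ≤ x) (k : ℕ) (h : x ≤ t (k + 1)) :
    ∃ j, j < k + 1 ∧ x ∈ Set.Icc (t j) (t (j + 1)) := by
  induction k with
  | zero => exact ⟨0, by omega, h0, h⟩
  | succ k ih =>
    rcases le_total x (t (k + 1)) with h1 | h1
    · obtain ⟨j, h2, h3⟩ := ih h1
      exact ⟨j, by omega, h3⟩
    · exact ⟨k + 1, by omega, h1, h⟩


theorem planar : ∃ f : ℝ → ℝ × ℝ, Continuous f ∧ (∀ y, {x : ℝ | f x = y}.encard ≤ 2) ∧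
    ∀ (m k : ℕ) (t : ℕ → ℝ), Cuts ((3 : ℝ) ^ (4 * m + 20 + 1))⁻¹ k t →
      ∃ i, i < k ∧ (m : ℕ∞) < (Meeting f k t i).encard := by
  classical
  obtain ⟨g, hg⟩ := ContinuousMap.exists_extension (e_cont.isClosedEmbedding e_inj)
    (⟨fun a => e (a ∘ pm), e_cont.comp (continuous_pi fun i => continuous_apply _)⟩ :
      C(ℕ → Bool, ℝ))
  have hg : ∀ a, g (e a) = e (a ∘ pm) := fun a => DFunLike.congr_fun hg a
  have gc := g.continuous
  refine ⟨fun x => (x + g x, x * g x), by fun_prop, fun y => ?_, ?_⟩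
  · rcases Set.eq_empty_or_nonempty
      {x : ℝ | (x + g x, x * g x) = y} with h | ⟨x, rfl⟩
    · rw [h]; simp
    · refine (Set.encard_le_encard (t := {x, g x}) ?_).trans ?_
      · intro z hz
        obtain ⟨h1, h2⟩ := Prod.mk.inj hz
        have : (z - x) * (z - g x) = 0 := by linear_combination z * h1 - h2
        rcases mul_eq_zero.1 this with h | h
        · exact Or.inl (sub_eq_zero.1 h)
        · exact Or.inr (sub_eq_zero.1 h)
      · exact (Set.encard_insert_le _ _).trans (by rw [Set.encard_singleton]; rfl)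
  rintro m k t ⟨hk, t0, t1, ht⟩
  by_contra hcon
  push Not at hcon
  have hm : ∀ i, i < k → (Meeting (fun x => (x + g x, x * g x)) k t i).encard ≤ (m : ℕ∞) :=
    hcon
  obtain ⟨k, rfl⟩ : ∃ k', k = k' + 1 := ⟨k - 1, by omega⟩
  let P : ℕ → Prop := fun d => ∃ i, i < k + 1 ∧ ∃ a : ℕ → Bool, ∀ b : ℕ → Bool,
    (∀ l < d, b l = a l) → e b ∈ Set.Icc (t i) (t (i + 1))
  have hP : ∃ d, P d := by
    obtain ⟨d, hd⟩ := exists_pow_lt_of_lt_one (t0 ▸ (ht 0 hk).1 : 0 < t (0 + 1))
      (by norm_num : (3 : ℝ)⁻¹ < 1)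
    refine ⟨d, 0, hk, fun _ => false, fun b hb => ⟨t0 ▸ (e_mem b).1, ?_⟩⟩
    have h1 := Real.abs_ofDigits_sub_ofDigits_le (x := fun i => (cond (b i) 2 0 : Fin 3))
      (y := fun _ => 0) (n := d) fun l hl => by rw [hb l hl]; rfl
    have h2 : Real.ofDigits (fun _ => (0 : Fin 3)) = 0 := by
      simp [Real.ofDigits, Real.ofDigitsTerm]
    rw [h2, sub_zero] at h1
    rw [inv_pow] at hd
    push_cast at h1
    exact ((le_abs_self _).trans h1).trans hd.le
  obtain ⟨i, hi, a, ha⟩ := Nat.find_spec hP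
  have hmin := @Nat.find_min _ _ hP
  generalize Nat.find hP = d at ha hmin
  have hd : 4 * m + 20 < d := by
    by_contra hc
    have h1 := ha (Function.update a (4 * m + 20) false) fun l hl =>
      Function.update_of_ne (by omega) _ _
    have h2 := ha (Function.update a (4 * m + 20) true) fun l hl =>
      Function.update_of_ne (by omega) _ _
    have h3 := e_lt (a := Function.update a (4 * m + 20) false)
      (b := Function.update a (4 * m + 20) true) (i := 4 * m + 20)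
      (fun l hl => by rw [Function.update_of_ne hl.ne, Function.update_of_ne hl.ne])
      (Function.update_self ..) (Function.update_self ..)
    linarith [h1.1, h2.2, (ht i hi).2]
  let p : ℕ → ℕ → Bool := fun s l => if l = 2 * (d / 4 + 1 + s) + 1 then true else
    if l % 2 = 1 ∧ d ≤ 2 * l then false else a (pm l)
  choose j hj1 hj2 using fun s => cover t (e (p s)) (t0 ▸ (e_mem _).1) k (t1 ▸ (e_mem _).2)
  have key : ∀ s s', s < s' → s' ≤ m → j s ≠ j s' := by
    intro s s' h1 h2 h3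
    refine hmin (m := d - 1) (by omega) ⟨j s, hj1 s,
      fun l => if l ≤ 2 * (d / 4 + 1 + s) + 1 then p s' l else true, fun b hb => ?_⟩
    beta_reduce at hb
    constructor
    · have h4 : p s' (2 * (d / 4 + 1 + (m + 1)) + 1) ≠ b (2 * (d / 4 + 1 + (m + 1)) + 1) := by
        rw [hb _ (by omega), if_neg (by omega)]
        simp only [p]
        rw [if_neg (by omega), if_pos (by omega)]
        decide
      have h5 : ∃ l, p s' l ≠ b l := ⟨_, h4⟩
      have h6 := Nat.find_spec h5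
      have h7 : Nat.find h5 ≤ _ := Nat.find_min' h5 h4
      have h8 : b (Nat.find h5) = true := by
        have h9 := hb (Nat.find h5) (by omega)
        split_ifs at h9 with h10
        · exact absurd h9.symm h6
        · exact h9
      refine (h3 ▸ (hj2 s').1).trans (e_le (i := Nat.find h5)
        (fun l hl => not_not.1 (Nat.find_min h5 hl)) ?_ h8).le
      rw [h8] at h6
      simpa using h6
    · refine (e_le (i := 2 * (d / 4 + 1 + s) + 1) (fun l hl => ?_) ?_ (if_pos rfl)).le.trans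
        (hj2 s).2
      · rw [hb l (by omega), if_pos hl.le]
        simp only [p]
        rw [if_neg (by omega), if_neg hl.ne]
      · rw [hb _ (by omega), if_pos le_rfl]
        simp only [p]
        rw [if_neg (by omega), if_pos (by omega)]
  have h1 : Set.InjOn j (Set.Iic m) := fun s hs s' hs' h => by
    rcases lt_trichotomy s s' with h1 | h1 | h1
    · exact absurd h (key s s' h1 hs')
    · exact h1
    · exact absurd h.symm (key s' s h1 hs)
  have h2 := (Set.encard_le_encard (s := j '' Set.Iic m) ?_).trans (hm i hi)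
  · rw [h1.encard_image, ← Finset.coe_Iic, Set.encard_coe_eq_coe_finsetCard, Nat.card_Iic] at h2
    exact absurd (Nat.cast_le.1 h2) (by omega)
  rintro _ ⟨s, -, rfl⟩
  refine ⟨hj1 s, _, ⟨e (p s ∘ pm), ha _ fun l hl => ?_, rfl⟩, e (p s), hj2 s, ?_⟩
  · have h3 : ¬ (pm l % 2 = 1 ∧ d ≤ 2 * pm l) := by
      unfold pm
      split_ifs <;> omega
    show (if pm l = _ then true else if _ then false else a (pm (pm l))) = a l
    rw [if_neg (by omega), if_neg h3, pm_pm]
  · have h3 : (p s ∘ pm) ∘ pm = p s := funext fun l => congrArg (p s) (pm_pm l)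
    simp only [hg, h3]
    exact Prod.ext (add_comm _ _) (mul_comm _ _)


theorem injective_case {Y : Type*} (f : ℝ → Y) (hf : Set.InjOn f (Set.Icc 0 1)) :
    FinLinWith f 3 := by
  intro ε hε
  obtain ⟨k, hk⟩ := exists_nat_gt (1 / ε)
  have hk0 : (0 : ℝ) < k := lt_trans (by positivity) hk
  have hk0' : 0 < k := by exact_mod_cast hk0
  refine ⟨k, fun i => (i : ℝ) / k, ⟨hk0', by simp, div_self hk0.ne', fun i hi => ?_⟩, ?_⟩
  · push_cast
    constructor
    · apply div_lt_div_of_pos_right _ hk0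
      linarith
    · rw [← sub_div, add_sub_cancel_left, div_lt_iff₀ hk0]
      rwa [div_lt_iff₀ hε, mul_comm] at hk
  · intro i hi
    refine (Set.encard_le_encard (t := {i - 1, i, i + 1}) ?_).trans ?_
    · rintro j ⟨hj, y, ⟨a, ha, rfl⟩, b, hb, hab⟩
      push_cast at ha hb
      rw [Set.mem_Icc, div_le_iff₀ hk0, le_div_iff₀ hk0] at ha hb
      have hi' : (i : ℝ) + 1 ≤ k := by exact_mod_cast hi
      have hj' : (j : ℝ) + 1 ≤ k := by exact_mod_cast hj
      have e : b = a := hf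
        ⟨by have := j.cast_nonneg (α := ℝ); nlinarith [hb.1], by nlinarith [hb.2]⟩
        ⟨by have := i.cast_nonneg (α := ℝ); nlinarith [ha.1], by nlinarith [ha.2]⟩ hab
      subst e
      have h1 : (j : ℝ) ≤ i + 1 := hb.1.trans ha.2
      have h2 : (i : ℝ) ≤ j + 1 := ha.1.trans hb.2
      have h1' : j ≤ i + 1 := by exact_mod_cast h1
      have h2' : i ≤ j + 1 := by exact_mod_cast h2
      simp only [Set.mem_insert_iff, Set.mem_singleton_iff]
      omega
    · refine (Set.encard_insert_le _ _).trans ?_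
      refine (add_le_add_left (Set.encard_insert_le _ _) 1).trans ?_
      rw [Set.encard_singleton]
      norm_num

theorem real_case (f : ℝ → ℝ) (n : ℕ) (hc : ContinuousOn f (Set.Icc 0 1))
    (hn : ∀ y, {x : ℝ | x ∈ Set.Icc (0 : ℝ) 1 ∧ f x = y}.encard ≤ (n : ℕ∞)) :
    FinLinWith f (6 * n + 3) := by
  classical
  intro ε hε
  have hfin : ∀ y, {x : ℝ | x ∈ Set.Icc (0 : ℝ) 1 ∧ f x = y}.Finite := fun y =>
    Set.finite_of_encard_le_coe (hn y)
  -- pieces on which `f` is not constant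
  obtain ⟨K, hK⟩ := exists_nat_gt (2 / ε)
  have hK0 : (0 : ℝ) < K := lt_trans (by positivity) hK
  have hK0' : 0 < K := by exact_mod_cast hK0
  have hKε : 2 / (K : ℝ) < ε := by
    rw [div_lt_iff₀ hK0]; rwa [div_lt_iff₀ hε, mul_comm] at hK
  have hsub : ∀ r : ℕ, r < K → Set.Icc ((r : ℝ) / K) (((r : ℝ) + 1) / K) ⊆ Set.Icc (0 : ℝ) 1 := by
    intro r hr x hx
    have h1 : (r : ℝ) + 1 ≤ K := by exact_mod_cast hr
    exact ⟨le_trans (by positivity) hx.1, hx.2.trans ((div_le_one hK0).2 h1)⟩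
  have hosc : ∀ r : ℕ, r < K → ∃ x ∈ Set.Icc ((r : ℝ) / K) (((r : ℝ) + 1) / K),
      ∃ x' ∈ Set.Icc ((r : ℝ) / K) (((r : ℝ) + 1) / K), f x < f x' := by
    intro r hr
    by_contra hcon
    push Not at hcon
    have hlt : (r : ℝ) / K < ((r : ℝ) + 1) / K := by
      apply div_lt_div_of_pos_right _ hK0; linarith
    refine (Set.Icc_infinite hlt) ((hfin (f ((r : ℝ) / K))).subset fun x hx => ⟨hsub r hr hx, ?_⟩)
    exact le_antisymm (hcon _ (Set.left_mem_Icc.2 hlt.le) _ hx)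
      (hcon _ hx _ (Set.left_mem_Icc.2 hlt.le))
  have hδ : ∃ δ : ℝ, 0 < δ ∧ ∀ r : ℕ, r < K → ∃ x ∈ Set.Icc ((r : ℝ) / K) (((r : ℝ) + 1) / K),
      ∃ x' ∈ Set.Icc ((r : ℝ) / K) (((r : ℝ) + 1) / K), f x + δ ≤ f x' := by
    have : ∀ R : ℕ, R ≤ K → ∃ δ : ℝ, 0 < δ ∧ ∀ r : ℕ, r < R →
        ∃ x ∈ Set.Icc ((r : ℝ) / K) (((r : ℝ) + 1) / K),
        ∃ x' ∈ Set.Icc ((r : ℝ) / K) (((r : ℝ) + 1) / K), f x + δ ≤ f x' := by
      intro R
      induction R with
      | zero => exact fun _ => ⟨1, one_pos, fun r hr => absurd hr (by omega)⟩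
      | succ R ih =>
        intro hR
        obtain ⟨δ, h1, h2⟩ := ih (by omega)
        obtain ⟨x, hx, x', hx', hxx⟩ := hosc R (by omega)
        refine ⟨min δ (f x' - f x), lt_min h1 (by linarith), fun r hr => ?_⟩
        rcases Nat.lt_succ_iff_lt_or_eq.1 hr with h | rfl
        · obtain ⟨y, hy, y', hy', hyy⟩ := h2 r h
          exact ⟨y, hy, y', hy', by have := min_le_left δ (f x' - f x); linarith⟩
        · exact ⟨x, hx, x', hx', by have := min_le_right δ (f x' - f x); linarith⟩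
    exact this K le_rfl
  obtain ⟨δ, hδ, hosc⟩ := hδ
  set P : Set ℝ := {x | x ∈ Set.Icc (0 : ℝ) 1 ∧ ∃ z : ℤ, f x = z * δ} with hP
  -- every piece meets `P`
  have hmeet : ∀ r : ℕ, r < K → ∃ x ∈ Set.Icc ((r : ℝ) / K) (((r : ℝ) + 1) / K), x ∈ P := by
    intro r hr
    obtain ⟨x, hx, x', hx', hxx⟩ := hosc r hr
    have h1 : (⌈f x / δ⌉ : ℝ) * δ ∈ Set.uIcc (f x) (f x') := by
      rw [Set.uIcc_of_le (by linarith)]
      constructor
      · have := Int.le_ceil (f x / δ)
        rwa [div_le_iff₀ hδ] at this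
      · have := (Int.ceil_lt_add_one (f x / δ)).le
        have h2 : (⌈f x / δ⌉ : ℝ) * δ ≤ (f x / δ + 1) * δ := mul_le_mul_of_nonneg_right this hδ.le
        rw [add_mul, div_mul_cancel₀ _ hδ.ne', one_mul] at h2
        linarith
    have h2 : Set.uIcc x x' ⊆ Set.Icc ((r : ℝ) / K) (((r : ℝ) + 1) / K) :=
      Set.uIcc_subset_Icc hx hx'
    obtain ⟨z, hz, hz'⟩ := intermediate_value_uIcc (hc.mono (h2.trans (hsub r hr))) h1
    exact ⟨z, h2 hz, hsub r hr (h2 hz), _, hz'⟩
  have hPfin : P.Finite := by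
    obtain ⟨B, hB⟩ := (isCompact_Icc.image_of_continuousOn hc).isBounded.subset_closedBall 0
    have : P ⊆ ⋃ z ∈ Set.Icc (-⌈B / δ⌉) ⌈B / δ⌉, {x : ℝ | x ∈ Set.Icc (0 : ℝ) 1 ∧ f x = z * δ} := by
      rintro x ⟨hx, z, hz⟩
      refine Set.mem_iUnion₂.2 ⟨z, ?_, hx, hz⟩
      have h1 := hB ⟨x, hx, rfl⟩
      rw [mem_closedBall_zero_iff, Real.norm_eq_abs, hz, abs_mul, abs_of_pos hδ,
        ← le_div_iff₀ hδ] at h1
      have h2 : |(z : ℝ)| ≤ ⌈B / δ⌉ := h1.trans (Int.le_ceil _)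
      have h3 : |z| ≤ ⌈B / δ⌉ := by exact_mod_cast h2
      exact ⟨(abs_le.1 h3).1, (abs_le.1 h3).2⟩
    exact ((Set.finite_Icc _ _).biUnion fun z _ => hfin _).subset this
  set T : Finset ℝ := hPfin.toFinset ∪ {0, 1} with hT
  have hT01 : ∀ x ∈ T, 0 ≤ x ∧ x ≤ 1 := by
    intro x hx
    simp only [hT, Finset.mem_union, Set.Finite.mem_toFinset, Finset.mem_insert,
      Finset.mem_singleton] at hx
    rcases hx with hx | rfl | rfl
    · exact hx.1
    · norm_num
    · norm_num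
  have h0T : (0 : ℝ) ∈ T := by simp [hT]
  have h1T : (1 : ℝ) ∈ T := by simp [hT]
  have hPT : ∀ x ∈ P, x ∈ T := fun x hx => by simp [hT, hx]
  have hTP : ∀ x ∈ T, x ≠ 0 → x ≠ 1 → x ∈ P := by
    intro x hx h0 h1
    simpa [hT, h0, h1] using hx
  have hcard : 1 < T.card := Finset.one_lt_card.2 ⟨0, h0T, 1, h1T, by norm_num⟩
  obtain ⟨k, hk⟩ : ∃ k, T.card = k + 1 := ⟨T.card - 1, by omega⟩
  have hk0 : 0 < k := by omega
  set em := T.orderEmbOfFin hk with hem
  have hemT : ∀ x ∈ T, ∃ j, em j = x := by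
    intro x hx
    have : x ∈ Set.range em := by rw [hem, Finset.range_orderEmbOfFin]; exact hx
    exact this
  have hTem : ∀ j, em j ∈ T := fun j => Finset.orderEmbOfFin_mem T hk j
  let t : ℕ → ℝ := fun i => em ⟨min i k, by omega⟩
  have tlt : ∀ i j, i < j → j ≤ k → t i < t j := by
    intro i j h1 h2
    apply em.strictMono
    rw [Fin.lt_def]
    show min i k < min j k
    omega
  have tT : ∀ i, t i ∈ T := fun i => hTem _
  have tgap : ∀ i, i < k → ∀ x ∈ T, ¬ (t i < x ∧ x < t (i + 1)) := by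
    rintro i hi x hx ⟨h1, h2⟩
    obtain ⟨j, rfl⟩ := hemT x hx
    have h1 := em.lt_iff_lt.1 h1
    have h2 := em.lt_iff_lt.1 h2
    rw [Fin.lt_def] at h1 h2
    simp only at h1 h2
    omega
  have t0 : t 0 = 0 := by
    obtain ⟨j, hj⟩ := hemT 0 h0T
    refine le_antisymm ?_ (hT01 _ (tT 0)).1
    rw [← hj]
    exact em.le_iff_le.2 (by rw [Fin.le_def]; show min 0 k ≤ _; omega)
  have tk : t k = 1 := by
    obtain ⟨j, hj⟩ := hemT 1 h1T
    refine le_antisymm (hT01 _ (tT k)).2 ?_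
    rw [← hj]
    exact em.le_iff_le.2 (by rw [Fin.le_def]; show _ ≤ min k k; have := j.2; omega)
  have tsub : ∀ i, i < k → Set.Icc (t i) (t (i + 1)) ⊆ Set.Icc (0 : ℝ) 1 := fun i hi x hx =>
    ⟨(hT01 _ (tT i)).1.trans hx.1, hx.2.trans (hT01 _ (tT (i + 1))).2⟩
  have tmesh : ∀ i, i < k → t (i + 1) - t i < ε := by
    intro i hi
    by_contra hcon
    push Not at hcon
    set u := t i with hu
    have hu0 : 0 ≤ u := (hT01 _ (tT i)).1
    have hv1 : t (i + 1) ≤ 1 := (hT01 _ (tT (i + 1))).2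
    set r := ⌊u * K⌋₊ + 1 with hr
    have h1 : u * K < r := by rw [hr]; push_cast; exact Nat.lt_floor_add_one _
    have h2 : (r : ℝ) ≤ u * K + 1 := by
      rw [hr]; push_cast
      have := Nat.floor_le (show 0 ≤ u * K by positivity)
      linarith
    have h3 : u < (r : ℝ) / K := by rwa [lt_div_iff₀ hK0]
    have h4 : ((r : ℝ) + 1) / K < t (i + 1) := by
      have : ((r : ℝ) + 1) / K ≤ u + 2 / K := by
        rw [div_le_iff₀ hK0, add_mul, div_mul_cancel₀ _ hK0.ne']; linarith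
      linarith
    have h5 : r < K := by
      have h6 : ((r : ℝ) + 1) / K < 1 := h4.trans_le hv1
      rw [div_lt_one hK0] at h6
      have h7 : (r : ℝ) < K := by linarith
      exact_mod_cast h7
    obtain ⟨x, hx, hxP⟩ := hmeet r h5
    exact tgap i hi x (hPT x hxP) ⟨h3.trans_le hx.1, hx.2.trans_lt h4⟩
  -- each interval is mapped into one cell
  have hcell : ∀ i, i < k → ∃ c : ℤ, ∀ x ∈ Set.Icc (t i) (t (i + 1)),
      (c : ℝ) * δ ≤ f x ∧ f x ≤ ((c : ℝ) + 1) * δ := by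
    intro i hi
    have hlt := tlt i (i + 1) (by omega) (by omega)
    set x0 := (t i + t (i + 1)) / 2 with hx0
    have hx0m : x0 ∈ Set.Ioo (t i) (t (i + 1)) := ⟨by rw [hx0]; linarith, by rw [hx0]; linarith⟩
    have hx0P : ∀ x ∈ Set.Ioo (t i) (t (i + 1)), ∀ z : ℤ, f x ≠ z * δ := fun x hx z hz =>
      tgap i hi x (hPT x ⟨tsub i hi ⟨hx.1.le, hx.2.le⟩, z, hz⟩) hx
    have hfl := Int.floor_le (f x0 / δ)
    have hfu := Int.lt_floor_add_one (f x0 / δ)
    rw [le_div_iff₀ hδ] at hfl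
    rw [div_lt_iff₀ hδ] at hfu
    have hfl' : (⌊f x0 / δ⌋ : ℝ) * δ < f x0 := lt_of_le_of_ne hfl fun h => hx0P x0 hx0m _ h.symm
    refine ⟨⌊f x0 / δ⌋, fun x hx => ?_⟩
    have hss : Set.uIcc x0 x ⊆ Set.Icc (t i) (t (i + 1)) :=
      Set.uIcc_subset_Icc ⟨hx0m.1.le, hx0m.2.le⟩ hx
    have hcc : ContinuousOn f (Set.uIcc x0 x) := hc.mono (hss.trans (tsub i hi))
    have hkey : ∀ z : ℤ, (z : ℝ) * δ ∈ Set.uIcc (f x0) (f x) → f x = z * δ := by
      intro z hz
      obtain ⟨w, hw, hw'⟩ := intermediate_value_uIcc hcc hz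
      by_contra hne
      have hwx : w ≠ x := fun e => hne (e ▸ hw')
      refine hx0P w ?_ z hw'
      rcases le_total x0 x with h | h
      · rw [Set.uIcc_of_le h] at hw
        exact ⟨hx0m.1.trans_le hw.1, (lt_of_le_of_ne hw.2 hwx).trans_le hx.2⟩
      · rw [Set.uIcc_of_ge h] at hw
        exact ⟨hx.1.trans_lt (lt_of_le_of_ne hw.1 hwx.symm), hw.2.trans_lt hx0m.2⟩
    constructor
    · by_contra hlt
      push Not at hlt
      have := hkey ⌊f x0 / δ⌋ (by
        rw [Set.uIcc_of_ge (by linarith)]; exact ⟨hlt.le, hfl'.le⟩)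
      linarith
    · by_contra hlt
      push Not at hlt
      have := hkey (⌊f x0 / δ⌋ + 1) (by
        push_cast
        rw [Set.uIcc_of_le (by linarith)]; exact ⟨hfu.le, hlt.le⟩)
      push_cast at this
      linarith
  choose! c hcl using hcell
  -- counting
  have hcount : ∀ e : ℤ, {j : ℕ | j < k ∧ c j = e}.encard ≤ ((2 * n + 1 : ℕ) : ℕ∞) := by
    intro e
    have hfib : ∀ y, {j : ℕ | j < k ∧ f (t j) = y}.encard ≤ (n : ℕ∞) := by
      intro y
      refine le_trans ?_ (hn y)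
      refine Set.encard_le_encard_of_injOn (f := t) ?_ ?_
      · rintro j ⟨hj, hy⟩
        exact ⟨hT01 _ (tT j), hy⟩
      · intro a ha b hb hab
        rcases lt_trichotomy a b with h | h | h
        · exact absurd hab (tlt a b h hb.1.le).ne
        · exact h
        · exact absurd hab (tlt b a h ha.1.le).ne'
    refine (Set.encard_le_encard (t := ({0} : Set ℕ) ∪ ({j : ℕ | j < k ∧ f (t j) = e * δ} ∪
      {j : ℕ | j < k ∧ f (t j) = (e + 1) * δ})) ?_).trans ?_
    · rintro j ⟨hj, rfl⟩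
      rcases Nat.eq_zero_or_pos j with h | h
      · exact Or.inl h
      · right
        have h1 : t j ∈ P := hTP _ (tT j) (by rw [← t0]; exact (tlt 0 j h hj.le).ne')
          (by rw [← tk]; exact (tlt j k hj le_rfl).ne)
        obtain ⟨-, z, hz⟩ := h1
        have h2 := hcl j hj (t j) ⟨le_rfl, (tlt j (j + 1) (by omega) (by omega)).le⟩
        rw [hz] at h2
        have h3 : (c j : ℝ) ≤ z := le_of_mul_le_mul_right h2.1 hδ
        have h4 : (z : ℝ) ≤ c j + 1 := le_of_mul_le_mul_right h2.2 hδ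
        have h3' : c j ≤ z := by exact_mod_cast h3
        have h4' : z ≤ c j + 1 := by exact_mod_cast h4
        rcases (show z = c j ∨ z = c j + 1 by omega) with h5 | h5
        · exact Or.inl ⟨hj, by rw [hz, h5]⟩
        · exact Or.inr ⟨hj, by rw [hz, h5]; push_cast; ring⟩
    · refine (Set.encard_union_le _ _).trans ?_
      rw [Set.encard_singleton]
      refine (add_le_add_right ((Set.encard_union_le _ _).trans
        (add_le_add (hfib _) (hfib _))) 1).trans ?_
      rw [← Nat.cast_one, ← Nat.cast_add, ← Nat.cast_add]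
      exact_mod_cast (by omega : 1 + (n + n) ≤ 2 * n + 1)
  refine ⟨k, t, ⟨hk0, t0, tk, fun i hi => ⟨tlt i (i + 1) (by omega) (by omega), tmesh i hi⟩⟩,
    fun i hi => ?_⟩
  refine (Set.encard_le_encard (t := {j : ℕ | j < k ∧ c j = c i - 1} ∪
    ({j : ℕ | j < k ∧ c j = c i} ∪ {j : ℕ | j < k ∧ c j = c i + 1})) ?_).trans ?_
  · rintro j ⟨hj, y, ⟨a, ha, rfl⟩, b, hb, hab⟩
    have h1 := hcl i hi a ha
    have h2 := hcl j hj b hb
    rw [hab] at h2
    have h3 : (c j : ℝ) ≤ c i + 1 := le_of_mul_le_mul_right (h2.1.trans h1.2) hδ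
    have h4 : (c i : ℝ) ≤ c j + 1 := le_of_mul_le_mul_right (h1.1.trans h2.2) hδ
    have h3' : c j ≤ c i + 1 := by exact_mod_cast h3
    have h4' : c i ≤ c j + 1 := by exact_mod_cast h4
    rcases (show c j = c i - 1 ∨ c j = c i ∨ c j = c i + 1 by omega) with h | h | h
    · exact Or.inl ⟨hj, h⟩
    · exact Or.inr (Or.inl ⟨hj, h⟩)
    · exact Or.inr (Or.inr ⟨hj, h⟩)
  · refine (Set.encard_union_le _ _).trans ((add_le_add (hcount _)
      ((Set.encard_union_le _ _).trans (add_le_add (hcount _) (hcount _)))).trans ?_)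
    rw [← Nat.cast_add, ← Nat.cast_add]
    exact_mod_cast (by omega : 2 * n + 1 + (2 * n + 1 + (2 * n + 1)) ≤ 6 * n + 3)

/-- A continuous at most two-to-one map into the plane need not be finitely linear, while injective
maps into any space and continuous at most `n`-to-one maps into the line always are. -/
theorem result :
    (∃ f : ℝ → ℝ × ℝ, Continuous f ∧ (∀ y, {x : ℝ | f x = y}.encard ≤ 2) ∧
      (∀ (m k : ℕ) (t : ℕ → ℝ), Cuts ((3 : ℝ) ^ (4 * m + 21))⁻¹ k t →
        ∃ i, i < k ∧ (m : ℕ∞) < (Meeting f k t i).encard) ∧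
      ∀ m : ℕ, ¬ FinLinWith f m) ∧
    (∀ (Y : Type) (f : ℝ → Y), Set.InjOn f (Set.Icc 0 1) → FinLinWith f 3) ∧
    (∀ (f : ℝ → ℝ) (n : ℕ), ContinuousOn f (Set.Icc 0 1) →
      (∀ y, {x : ℝ | x ∈ Set.Icc (0 : ℝ) 1 ∧ f x = y}.encard ≤ (n : ℕ∞)) →
      FinLinWith f (6 * n + 3)) := by
  refine ⟨?_, fun Y f hf => injective_case f hf, fun f n hc hn => real_case f n hc hn⟩
  obtain ⟨f, hf, h2, h3⟩ := planar
  refine ⟨f, hf, h2, h3, fun m hm => ?_⟩
  obtain ⟨k, t, ht, hk⟩ := hm ((3 : ℝ) ^ (4 * m + 20 + 1))⁻¹ (by positivity)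
  obtain ⟨i, hi, hlt⟩ := h3 m k t ht
  exact absurd (hk i hi) (not_le.2 hlt)

end Pool.Agent.Results.MP_d91817_gt.SharpThreshold
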